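import Pool.Agent.R989.Tr5

/-!
# Coefficient truncation is unbounded in `L_p` of the circle for every `p` in `(0, 2)`

The answer to the question is no: for no exponent `p` in `(0, 2)` are the norms of the coefficient
truncation operators on complex polynomials of degree at most `n` bounded uniformly in `n`.

Proof.  On polynomials whose nonzero coefficients have modulus at least one the truncation is
multiplicative for products `P(z) Q(z^K)` with `K > deg P`, and the `p`-th power integrals of such
products are asymptotically multiplicative as `K` tends to infinity.  So it suffices to find one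
such polynomial `F` with `‖S F‖_p > ‖F‖_p`.  Start from `g(z) = u + z + u z^2`, `u = (3+4i)/5`; the
number `I`, the mean of `|g|^(p-2) g conj(z)`, is not real for `p < 2`.  Hence some power `I^M` has
negative real part, and a product `h` of `M` rapidly dilated copies of `g` has a coefficient equal
to `1` such that increasing this coefficient slightly decreases the `L_p` norm.
-/

open Complex MeasureTheory Set intervalIntegral Polynomial

namespace Pool.Agent.Results.MP_2fd64a_an.UnboundedBelowTwo

open Pool.Agent.R989.Tr

/-- For every `p ∈ (0,2)` there is no constant bounding all the norms of the truncation operators. -/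
theorem result : ∀ p : ℝ, 0 < p → p < 2 → ¬ ∃ c : ℝ, ∀ n : ℕ, normS p n ≤ ENNReal.ofReal c := by
  intro p hp0 hp2
  rintro ⟨C, hC⟩
  obtain ⟨c, δ, hc, hδ, h⟩ := growth p hp0 hp2
  have hlim : Filter.Tendsto (fun n : ℕ => c * (n : ℝ) ^ δ) Filter.atTop Filter.atTop :=
    ((tendsto_rpow_atTop hδ).comp tendsto_natCast_atTop_atTop).const_mul_atTop hc
  obtain ⟨n, hn1, hn⟩ := ((Filter.eventually_ge_atTop 1).and (hlim.eventually_gt_atTop (max C 0))).exists
  have h1 := (h n hn1).trans (hC n)
  have h2 : 0 < c * (n : ℝ) ^ δ := (le_max_right _ _).trans_lt hn
  have h3 : c * (n : ℝ) ^ δ ≤ C := by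
    rcases le_or_gt C 0 with h0 | h0
    · rw [ENNReal.ofReal_of_nonpos h0] at h1
      have := ENNReal.ofReal_pos.2 h2
      exact absurd h1 (not_le.2 this)
    · exact (ENNReal.ofReal_le_ofReal_iff h0.le).1 h1
  exact absurd h3 (not_le.2 ((le_max_left _ _).trans_lt hn))

end Pool.Agent.Results.MP_2fd64a_an.UnboundedBelowTwo
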